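import Mathlib

set_option autoImplicit false

namespace Pool.Agent.Results.MP_633bfc_co.Complement

open Finset

open Classical in
/-- The edges of `G` with exactly one endpoint in `W`. -/
noncomputable def bdry {V : Type} [Fintype V] (G : SimpleGraph V) (W : Finset V) :
    Finset (Sym2 V) :=
  univ.filter (fun e => e ∈ G.edgeSet ∧ ∃ a ∈ W, ∃ b ∉ W, e = s(a, b))

open Classical in
/-- The vertices outside `W` joined to a vertex of `W` by an edge of `F`. -/
noncomputable def nbr {V : Type} [Fintype V] (F : Finset (Sym2 V)) (W : Finset V) : Finset V :=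
  univ.filter (fun v => v ∉ W ∧ ∃ a ∈ W, s(a, v) ∈ F)

/-- The bipartition polynomial; `X 0, X 1, X 2` are `x, y, z`. -/
noncomputable def bip {V : Type} [Fintype V] (G : SimpleGraph V) : MvPolynomial (Fin 3) ℤ :=
  ∑ W : Finset V, MvPolynomial.X 0 ^ W.card *
    ∑ F ∈ (bdry G W).powerset, MvPolynomial.X 1 ^ (nbr F W).card * MvPolynomial.X 2 ^ F.card

open Classical in
noncomputable def dg {V : Type} (G : SimpleGraph V) (W : Finset V) (v : V) : ℕ :=
  (W.filter (fun a => G.Adj a v)).card

open Classical in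
theorem inner {V : Type} [Fintype V] (G : SimpleGraph V) (W : Finset V) (y z : ℝ) :
    ∑ F ∈ (bdry G W).powerset, y ^ (nbr F W).card * z ^ F.card =
      ∏ v ∈ Wᶜ, ((1 - y) + y * (1 + z) ^ dg G W v) := by
  have h1 : ∀ F : Finset (Sym2 V), y ^ (nbr F W).card = ∑ S ∈ (Wᶜ).powerset,
      (if Disjoint S (nbr F W) then (1 - y) ^ S.card * y ^ (Wᶜ \ S).card else 0) := by
    intro F
    have e1 : y ^ (nbr F W).card =
        ∏ v ∈ Wᶜ, ((if v ∈ nbr F W then 0 else 1 - y) + y) := by
      have : ∀ v, ((if v ∈ nbr F W then 0 else 1 - y) + y) = if v ∈ nbr F W then y else 1 := by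
        intro v; split_ifs <;> ring
      simp only [this]
      rw [prod_ite, prod_const_one, mul_one, prod_const]
      congr 2
      ext v
      simp only [nbr, mem_filter, mem_univ, true_and, mem_compl]
      tauto
    rw [e1, prod_add]
    refine sum_congr rfl (fun S _ => ?_)
    rw [prod_const]
    split_ifs with h
    · rw [prod_congr rfl (fun v hv => if_neg (disjoint_left.1 h hv)), prod_const]
    · rw [not_disjoint_iff] at h
      obtain ⟨v, hv, hv'⟩ := h
      rw [prod_eq_zero (f := fun v => if v ∈ nbr F W then 0 else 1 - y) hv (if_pos hv'), zero_mul]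
  simp only [h1, sum_mul]
  rw [sum_comm, prod_add]
  refine sum_congr rfl (fun S hS => ?_)
  have hS' := mem_powerset.1 hS
  set D := (bdry G W).filter (fun e => ∀ v ∈ S, v ∉ e) with hD
  have h2 : ∀ F ∈ (bdry G W).powerset, (Disjoint S (nbr F W) ↔ F ⊆ D) := by
    intro F hF
    have hF' := mem_powerset.1 hF
    rw [disjoint_left]
    constructor
    · intro h e he
      refine mem_filter.2 ⟨hF' he, fun v hv hve => h hv ?_⟩
      obtain ⟨_, a, ha, b, hb, rfl⟩ := (mem_filter.1 (hF' he)).2
      have hvW : v ∉ W := mem_compl.1 (hS' hv)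
      rcases Sym2.mem_iff.1 hve with rfl | rfl
      · exact absurd ha hvW
      · exact mem_filter.2 ⟨mem_univ _, hb, a, ha, he⟩
    · intro h v hv hn
      obtain ⟨_, a, _, he⟩ := (mem_filter.1 hn).2
      exact (mem_filter.1 (h he)).2 v hv (Sym2.mem_mk_right _ _)
  have h3 : D.card = ∑ v ∈ Wᶜ \ S, dg G W v := by
    unfold dg
    rw [← card_sigma]
    symm
    refine card_bij (fun p _ => s(p.2, p.1)) ?_ ?_ ?_
    · rintro ⟨v, a⟩ hp
      simp only [mem_sigma, mem_sdiff, mem_compl, mem_filter] at hp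
      refine mem_filter.2 ⟨mem_filter.2 ⟨mem_univ _, hp.2.2, a, hp.2.1, v, hp.1.1, rfl⟩, ?_⟩
      intro u hu hue
      rcases Sym2.mem_iff.1 hue with rfl | rfl
      · exact mem_compl.1 (hS' hu) hp.2.1
      · exact hp.1.2 hu
    · rintro ⟨v, a⟩ hp ⟨v', a'⟩ hp' h
      simp only [mem_sigma, mem_sdiff, mem_compl, mem_filter] at hp hp'
      rcases Sym2.eq_iff.1 h with ⟨h1, h2⟩ | ⟨h1, h2⟩
      · simp only at h1 h2
        subst h1 h2
        rfl
      · simp only at h1 h2
        subst h1
        exact absurd hp.2.1 hp'.1.1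
    · intro e he
      obtain ⟨he1, he2⟩ := mem_filter.1 he
      obtain ⟨h0, a, ha, b, hb, rfl⟩ := (mem_filter.1 he1).2
      refine ⟨⟨b, a⟩, ?_, rfl⟩
      simp only [mem_sigma, mem_sdiff, mem_compl, mem_filter]
      exact ⟨⟨hb, fun h => he2 b h (Sym2.mem_mk_right _ _)⟩, ha, h0⟩
  rw [sum_congr rfl (g := fun F => if F ⊆ D then (1 - y) ^ S.card * y ^ (Wᶜ \ S).card * z ^ F.card
    else 0) (fun F hF => by rw [ite_mul, zero_mul]; exact if_congr (h2 F hF) rfl rfl),
    ← sum_filter]
  have h4 : (bdry G W).powerset.filter (fun F => F ⊆ D) = D.powerset := by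
    ext F
    simp only [mem_filter, mem_powerset]
    exact ⟨fun h => h.2, fun h => ⟨h.trans (filter_subset _ _), h⟩⟩
  rw [h4, ← mul_sum, prod_const, prod_mul_distrib, prod_const, prod_pow_eq_pow_sum, ← h3,
    ← prod_const (1 + z), prod_one_add]
  simp [mul_assoc]

open Classical in
noncomputable def bb {V : Type} [Fintype V] (G : SimpleGraph V) (w : ℕ) (y t : ℝ) : ℝ :=
  ∑ W ∈ univ.filter (fun W : Finset V => W.card = w), ∏ v ∈ Wᶜ, ((1 - y) + y * t ^ dg G W v)

open Classical in
noncomputable def px {V : Type} [Fintype V] (G : SimpleGraph V) (y t : ℝ) : Polynomial ℝ :=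
  ∑ W : Finset V, Polynomial.monomial W.card (∏ v ∈ Wᶜ, ((1 - y) + y * t ^ dg G W v))

theorem px_coeff {V : Type} [Fintype V] (G : SimpleGraph V) (y t : ℝ) (w : ℕ) :
    (px G y t).coeff w = bb G w y t := by
  simp only [px, bb, Polynomial.finsetSum_coeff, Polynomial.coeff_monomial, sum_filter]

theorem ev {V : Type} [Fintype V] (G : SimpleGraph V) (p : Fin 3 → ℝ) :
    MvPolynomial.aeval p (bip G) = (px G (p 1) (1 + p 2)).eval (p 0) := by
  simp only [bip, px, map_sum, map_mul, map_pow, MvPolynomial.aeval_X, inner,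
    Polynomial.eval_finsetSum, Polynomial.eval_monomial]
  exact sum_congr rfl (fun W _ => mul_comm _ _)

theorem bb_compl {V : Type} [Fintype V] (G : SimpleGraph V) (w : ℕ) (y t : ℝ) (ht : t ≠ 0)
    (hl : 1 - y + y * t ^ w ≠ 0) :
    bb G w y t = (1 - y + y * t ^ w) ^ (Fintype.card V - w) *
      bb Gᶜ w (y * t ^ w / (1 - y + y * t ^ w)) t⁻¹ := by
  classical
  unfold bb
  rw [mul_sum]
  refine sum_congr rfl (fun W hW => ?_)
  have hw := (mem_filter.1 hW).2
  rw [← hw, ← card_compl, ← prod_const, ← prod_mul_distrib, hw]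
  refine prod_congr rfl (fun v hv => ?_)
  have h1 : dg G W v + dg Gᶜ W v = w := by
    unfold dg
    rw [← hw, ← card_filter_add_card_filter_not (s := W) (fun a => G.Adj a v)]
    congr 2
    ext a
    simp only [mem_filter, SimpleGraph.compl_adj]
    exact ⟨fun h => ⟨h.1, h.2.2⟩, fun h => ⟨h.1, fun e => mem_compl.1 hv (e ▸ h.1), h.2⟩⟩
  have h2 : t ^ w = t ^ dg G W v * t ^ dg Gᶜ W v := by rw [← pow_add, h1]
  rw [inv_pow]
  have h3 : t ^ dg Gᶜ W v ≠ 0 := pow_ne_zero _ ht
  field_simp
  rw [h2]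
  ring

theorem bb_top {V : Type} [Fintype V] (G : SimpleGraph V) (y t : ℝ) :
    bb G (Fintype.card V) y t = 1 := by
  classical
  unfold bb
  have : univ.filter (fun W : Finset V => W.card = Fintype.card V) = {univ} := by
    ext W
    simp [card_eq_iff_eq_univ]
  rw [this]
  simp

theorem bb_gt {V : Type} [Fintype V] (G : SimpleGraph V) (y t : ℝ) (w : ℕ)
    (h : Fintype.card V < w) : bb G w y t = 0 := by
  unfold bb
  refine sum_eq_zero (fun W hW => ?_)
  have := card_le_univ W
  have := (mem_filter.1 hW).2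
  omega

theorem result {V V' : Type} [Fintype V] [Fintype V'] (G : SimpleGraph V) (H : SimpleGraph V')
    (h : bip Gᶜ = bip Hᶜ) : bip G = bip H := by
  have h1 : ∀ w y t, bb Gᶜ w y t = bb Hᶜ w y t := by
    intro w y t
    rw [← px_coeff, ← px_coeff]
    congr 1
    apply Polynomial.funext
    intro x
    have e1 := ev Gᶜ ![x, y, t - 1]
    have e2 := ev Hᶜ ![x, y, t - 1]
    rw [h, e2] at e1
    simpa using e1.symm
  have hn : Fintype.card V = Fintype.card V' := by
    rcases lt_trichotomy (Fintype.card V) (Fintype.card V') with hlt | he | hlt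
    · have := h1 (Fintype.card V') 0 0
      rw [bb_top, bb_gt _ _ _ _ hlt] at this
      exact absurd this (by norm_num)
    · exact he
    · have := h1 (Fintype.card V) 0 0
      rw [bb_top, bb_gt _ _ _ _ hlt] at this
      exact absurd this (by norm_num)
  apply MvPolynomial.map_injective (Int.castRingHom ℝ) Int.cast_injective
  refine MvPolynomial.funext_set (fun _ => Set.Ioo 0 1) (fun _ => Set.Ioo_infinite one_pos) ?_
  intro p hp
  have e : ∀ q : MvPolynomial (Fin 3) ℤ, MvPolynomial.eval p (MvPolynomial.map (Int.castRingHom ℝ) q)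
      = MvPolynomial.aeval p q := fun q => by
    rw [MvPolynomial.eval_map, MvPolynomial.aeval_def]; rfl
  rw [e, e, ev, ev]
  congr 1
  ext w
  obtain ⟨a1, a2⟩ := hp 1 (Set.mem_univ _)
  obtain ⟨a3, _⟩ := hp 2 (Set.mem_univ _)
  have ht : 0 < 1 + p 2 := by linarith
  have hl : 1 - p 1 + p 1 * (1 + p 2) ^ w ≠ 0 := by
    have := pow_pos ht w
    have := mul_pos a1 this
    linarith
  rw [px_coeff, px_coeff, bb_compl G _ _ _ ht.ne' hl, bb_compl H _ _ _ ht.ne' hl, h1, hn]

end Pool.Agent.Results.MP_633bfc_co.Complement
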